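import Mathlib

set_option autoImplicit false

namespace Pool.Agent.Results.MP_451208_an.NotSurj

open Set

/-- The shift `σ(x)_n = x_{n+1}`. -/
def sigma {A : Type} (x : ℤ → A) : ℤ → A := fun n => x (n + 1)

/-- `X` is a subshift. -/
def IsSubshift {A : Type} [TopologicalSpace A] (X : Set (ℤ → A)) : Prop :=
  IsClosed X ∧ sigma '' X = X

/-- Topological mixing; the open subsets of `X` are the sets `U ∩ X` with `U` open. -/
def Mixing {A : Type} [TopologicalSpace A] (X : Set (ℤ → A)) : Prop :=
  ∀ U V : Set (ℤ → A), IsOpen U → IsOpen V → (U ∩ X).Nonempty → (V ∩ X).Nonempty →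
    ∃ N : ℕ, ∀ n ≥ N, (sigma^[n] '' (U ∩ X) ∩ (V ∩ X)).Nonempty

abbrev Al := Bool × Bool × Bool

def XX : Set (ℤ → Al) :=
  {x | ∀ s d : ℤ, 0 < d → ¬ ((x s).1 = true ∧ (x (s + d)).2.1 = true ∧ (x (s - d)).2.2 = true)}

def tau (x : ℤ → Al) : ℤ → Al := fun n => ((x n).1, (x (n + 1)).2.1, (x (n - 1)).2.2)

lemma sigma_iter {A : Type} (n : ℕ) (x : ℤ → A) : sigma^[n] x = fun i => x (i + n) := by
  induction n with
  | zero => simp
  | succ n ih =>
    rw [Function.iterate_succ_apply', ih]
    funext i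
    simp only [sigma]
    push_cast
    rw [add_assoc, add_comm 1]

lemma cyl {U : Set (ℤ → Al)} (hU : IsOpen U) {x : ℤ → Al} (hx : x ∈ U) :
    ∃ r : ℕ, ∀ y : ℤ → Al, (∀ i : ℤ, |i| ≤ r → y i = x i) → y ∈ U := by
  obtain ⟨I, u, h1, h2⟩ := isOpen_pi_iff.1 hU x hx
  refine ⟨I.sup Int.natAbs, fun y hy => h2 fun i hi => ?_⟩
  rw [hy i]
  · exact (h1 i hi).2
  · rw [Int.abs_eq_natAbs]
    exact_mod_cast Finset.le_sup (f := Int.natAbs) hi

theorem result : ∃ (A : Type) (_ : Finite A) (_ : TopologicalSpace A) (_ : DiscreteTopology A)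
    (X : Set (ℤ → A)), X.Nonempty ∧ IsSubshift X ∧ Mixing X ∧
    ∃ τ : (ℤ → A) → (ℤ → A), Continuous τ ∧ (∀ x, τ (sigma x) = sigma (τ x)) ∧
      Function.Injective τ ∧ MapsTo τ X X ∧ τ '' X ≠ X := by
  refine ⟨Al, inferInstance, inferInstance, inferInstance, XX,
    ⟨fun _ => (false, false, false), by simp [XX]⟩, ⟨?_, ?_⟩, ?_, tau, ?_, ?_, ?_, ?_, ?_⟩
  · simp only [XX, setOf_forall]
    refine isClosed_iInter fun s => isClosed_iInter fun d => isClosed_iInter fun _ => ?_
    exact (isClosed_discrete {p : Al × Al × Al | ¬ (p.1.1 = true ∧ p.2.1.2.1 = true ∧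
      p.2.2.2.2 = true)}).preimage (f := fun x : ℤ → Al => (x s, x (s + d), x (s - d)))
      (by fun_prop)
  · apply Subset.antisymm
    · rintro _ ⟨x, hx, rfl⟩ s d hd
      have := hx (s + 1) d hd
      simp only [sigma]
      rwa [add_right_comm s d, sub_add_eq_add_sub]
    · intro x hx
      refine ⟨fun i => x (i - 1), fun s d hd => ?_, by funext i; simp [sigma]⟩
      have := hx (s - 1) d hd
      simp only
      rwa [add_sub_right_comm s d, sub_right_comm s d]
  · rintro U V hU hV ⟨x, xU, hx⟩ ⟨y, yV, hy⟩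
    obtain ⟨r, hr⟩ := cyl hU xU
    obtain ⟨q, hq⟩ := cyl hV yV
    refine ⟨4 * (r + q) + 1, fun n hn => ?_⟩
    let z : ℤ → Al := fun i => if |i| ≤ r then x i else if |i - n| ≤ q then y (i - n)
      else (false, false, false)
    have hz : z ∈ XX := by
      rintro s d hd ⟨a, b, c⟩
      simp only [z, abs_le] at a b c
      split_ifs at a b c <;> first
        | exact hx s d hd ⟨a, b, c⟩
        | exact hy (s - n) d hd ⟨a, by rwa [sub_add_eq_add_sub], by rwa [sub_right_comm]⟩
        | omega
        | simp at a b c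
    refine ⟨_, ⟨z, ⟨hr z fun i hi => if_pos hi, hz⟩, rfl⟩, hq _ fun i hi => ?_, ?_⟩
    · rw [sigma_iter]
      simp only [z, add_sub_cancel_right]
      rw [if_neg (by rw [abs_le] at hi ⊢; omega), if_pos hi]
    · rw [sigma_iter]
      intro s d hd
      have := hz (s + n) d hd
      simp only
      rwa [add_right_comm s d, sub_add_eq_add_sub]
  · unfold tau
    fun_prop
  · intro x
    funext i
    simp [tau, sigma]
  · intro x y h
    funext i
    have a := congrArg (fun z => (z i).1) h
    have b := congrArg (fun z => (z (i - 1)).2.1) h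
    have c := congrArg (fun z => (z (i + 1)).2.2) h
    simp only [tau, sub_add_cancel, add_sub_cancel_right] at a b c
    exact Prod.ext a (Prod.ext b c)
  · intro x hx s d hd
    have := hx s (d + 1) (by omega)
    simp only [tau]
    rwa [add_assoc, sub_sub]
  · intro h
    have h0 : (fun i : ℤ => if i = 0 then ((true, true, true) : Al) else (false, false, false)) ∈ XX := by
      rintro s d hd ⟨a, b, -⟩
      simp only at a b
      split_ifs at a b <;> first | omega | simp at a b
    rw [← h] at h0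
    obtain ⟨x, hx, e⟩ := h0
    have := congrFun e 0
    simp only [tau, if_true, Prod.mk.injEq] at this
    exact hx 0 1 one_pos this

end Pool.Agent.Results.MP_451208_an.NotSurj
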